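import Pool.Agent.Lib.MP_0e7911_co_h70.Link

/-!
# The link in finitely many variables
-/

set_option autoImplicit false

namespace Pool.Agent.Lib.MP_0e7911_co_h70

open MvPolynomial Finset Pool.Agent.Lib.MP_0e7911_co_h94 Pool.Agent.Lib.MP_0e7911_co_h56
open Pool.Agent.Lib.MP_0e7911_co_full Pool.Agent.Lib.MP_0e7911_co_full.BaseSys
open Pool.Agent.Lib.MP_0e7911_co_full.B3

/-! ### the functional only sees the component of degree `b.sum` -/

section deg

variable {R : Type*} [CommRing R]

/-- `z_i ↦ u z_i` -/
noncomputable def gr : MvPolynomial ℕ R →+* PowerSeries (MvPolynomial ℕ R) :=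
  eval₂Hom (PowerSeries.C.comp (C : R →+* MvPolynomial ℕ R))
    (fun i => PowerSeries.C (X i) * PowerSeries.X)

theorem gr_lin (a : R) (i : ℕ) : gr (1 - C a * X i) =
    1 - PowerSeries.C (C a * X i) * PowerSeries.X := by
  unfold gr
  rw [map_sub, map_one, map_mul, eval₂Hom_C, eval₂Hom_X', RingHom.comp_apply, map_mul, mul_assoc]

theorem gr_monomial (e : ℕ →₀ ℕ) (a : R) : gr (monomial e a) =
    PowerSeries.C (monomial e a) * PowerSeries.X ^ e.degree := by
  unfold gr
  rw [eval₂Hom_monomial, MvPolynomial.monomial_eq, Finsupp.prod, Finsupp.prod, RingHom.comp_apply,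
    Finset.prod_congr rfl (fun i _ => mul_pow (PowerSeries.C (X i : MvPolynomial ℕ R))
      PowerSeries.X (e i)), Finset.prod_mul_distrib, Finset.prod_pow_eq_pow_sum,
    ← Finsupp.degree_apply, ← mul_assoc, map_mul, map_prod]
  congr 2
  apply Finset.prod_congr rfl
  intro i _
  rw [map_pow]

theorem Phi_gr (q t : R) (b : List ℕ) (g : MvPolynomial ℕ R) :
    Phi q t b (PowerSeries.coeff b.sum (gr g)) = Phi q t b g := by
  induction g using MvPolynomial.induction_on' with
  | monomial e a =>
    rw [gr_monomial, PowerSeries.coeff_C_mul, PowerSeries.coeff_X_pow]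
    split_ifs with h
    · rw [mul_one]
    · rw [mul_zero, map_zero, Phi_hom q t b e.degree]
      · exact isHomogeneous_monomial _ rfl
      · exact fun h' => h h'.symm
  | add p r hp hr =>
    rw [map_add, map_add, map_add, map_add, hp, hr]

end deg

/-! ### elementary symmetric polynomials in finitely many variables -/

section elem

variable {A : Type*} [CommRing A]

theorem newt_lin' (a : A) : Newt (fun i => - a ^ i)
    (fun n => PowerSeries.coeff n (1 - PowerSeries.C a * PowerSeries.X)) := by
  have h0 : PowerSeries.coeff 0 (1 - PowerSeries.C a * PowerSeries.X : PowerSeries A) = 1 := by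
    simp
  have h1 : PowerSeries.coeff 1 (1 - PowerSeries.C a * PowerSeries.X : PowerSeries A) = -a := by
    rw [map_sub, PowerSeries.coeff_one, PowerSeries.coeff_C_mul, PowerSeries.coeff_X]
    simp
  have h2 : ∀ n, PowerSeries.coeff (n + 2) (1 - PowerSeries.C a * PowerSeries.X : PowerSeries A)
      = 0 := by
    intro n
    rw [map_sub, PowerSeries.coeff_one, PowerSeries.coeff_C_mul, PowerSeries.coeff_X,
      if_neg (by omega), if_neg (by omega), mul_zero, sub_zero]
  refine ⟨h0, fun n hn => ?_⟩
  obtain ⟨m, rfl⟩ : ∃ m, n = m + 1 := ⟨n - 1, by omega⟩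
  have h3 : ∑ i ∈ Icc 1 (m + 1), (- a ^ i) *
      PowerSeries.coeff (m + 1 - i) (1 - PowerSeries.C a * PowerSeries.X : PowerSeries A) =
      ∑ i ∈ range (m + 1), (- a ^ (i + 1)) *
      PowerSeries.coeff (m - i) (1 - PowerSeries.C a * PowerSeries.X : PowerSeries A) := by
    have h4 := sum_range_Icc (fun i => if i = 0 then 0 else (- a ^ i) *
      PowerSeries.coeff (m + 1 - i) (1 - PowerSeries.C a * PowerSeries.X : PowerSeries A)) (m + 1)
    rw [Finset.sum_range_succ'] at h4
    simp only [if_true, add_zero, zero_add] at h4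
    rw [Finset.sum_congr rfl (s₁ := Icc 1 (m + 1)) (g := fun i => (- a ^ i) *
      PowerSeries.coeff (m + 1 - i) (1 - PowerSeries.C a * PowerSeries.X : PowerSeries A))
      (fun i hi => by rw [mem_Icc] at hi; rw [if_neg (by omega)])] at h4
    rw [← h4]
    apply Finset.sum_congr rfl
    intro i _
    rw [if_neg (by omega)]
    congr 2
    congr 1
    omega
  rw [h3]
  rcases m with _ | m
  · rw [zero_add, h1]
    simp
  · rw [h2, mul_zero, Finset.sum_range_succ, Finset.sum_range_succ]
    have h5 : ∑ i ∈ range m, (- a ^ (i + 1)) * PowerSeries.coeff (m + 1 - i)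
        (1 - PowerSeries.C a * PowerSeries.X : PowerSeries A) = 0 := by
      apply Finset.sum_eq_zero
      intro i hi
      rw [mem_range] at hi
      obtain ⟨k, hk⟩ : ∃ k, m + 1 - i = k + 2 := ⟨m - 1 - i, by omega⟩
      rw [hk, h2, mul_zero]
    have h6 : m + 1 - m = 1 := by omega
    rw [h5, h6, h1, Nat.sub_self, h0]
    ring

theorem newt_prod_lin {ι : Type*} [DecidableEq ι] (s : Finset ι) (a : ι → A) :
    Newt (fun i => - ∑ j ∈ s, a j ^ i)
      (fun n => PowerSeries.coeff n (∏ j ∈ s, (1 - PowerSeries.C (a j) * PowerSeries.X))) := by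
  induction s using Finset.induction_on with
  | empty =>
    refine ⟨by simp, fun n hn => ?_⟩
    rw [Finset.prod_empty, PowerSeries.coeff_one, if_neg (by omega)]
    simp
  | insert j s hj ih =>
    have h1 := (newt_lin' (a j)).prod ih
    have h2 : (fun n => ∑ i ∈ range (n + 1), PowerSeries.coeff i
        (1 - PowerSeries.C (a j) * PowerSeries.X : PowerSeries A) *
        PowerSeries.coeff (n - i) (∏ j ∈ s, (1 - PowerSeries.C (a j) * PowerSeries.X))) =
        fun n => PowerSeries.coeff n (∏ j ∈ insert j s, (1 - PowerSeries.C (a j) * PowerSeries.X)) := by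
      funext n
      rw [Finset.prod_insert hj, PowerSeries.coeff_mul,
        Finset.Nat.sum_antidiagonal_eq_sum_range_succ (fun i k => PowerSeries.coeff i
        (1 - PowerSeries.C (a j) * PowerSeries.X : PowerSeries A) *
        PowerSeries.coeff k (∏ j ∈ s, (1 - PowerSeries.C (a j) * PowerSeries.X)))]
    rw [h2] at h1
    refine h1.congr fun i _ => ?_
    rw [Finset.sum_insert hj]
    ring

end elem

variable {K : Type*} [Field K] [CharZero K]

theorem evN_et (N n : ℕ) : evN K N (et K n) = PowerSeries.coeff n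
    (∏ al : Fin N, (1 - PowerSeries.C (X al : MvPolynomial (Fin N) K) * PowerSeries.X)) := by
  have h1 := (newt_elem (K := K)).map (evN K N).toRingHom
  have h2 := newt_prod_lin (Finset.univ : Finset (Fin N)) (fun al => (X al : MvPolynomial (Fin N) K))
  have h3 := h2.congr (P' := fun i => (evN K N).toRingHom (- MP_0e7911_co_h56.psum K i)) (by
    intro i hi
    change _ = evN K N (- MP_0e7911_co_h56.psum K i)
    unfold MP_0e7911_co_h56.psum evN
    rw [map_neg, aeval_X]
    have : i - 1 + 1 = i := by omega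
    rw [this])
  refine Newt.unique ?_ h1 h3 n
  intro m a b hm h
  have : ((m : ℕ) : MvPolynomial (Fin N) K) ≠ 0 := by exact_mod_cast hm.ne'
  exact mul_left_cancel₀ this h

/-- **LINK**, concrete side -/
theorem link (q t : K) (b : ℕ) (bs : List ℕ) (N : ℕ) :
    evN K N ((baseSys q t).Dw (b :: bs) 1) =
      Phi (MvPolynomial.C q) (MvPolynomial.C t) (b :: bs)
        (∏ j ∈ range (bs.length + 1), ∏ al : Fin N,
          (1 - MvPolynomial.C (MvPolynomial.X al) * MvPolynomial.X j)) := by
  have h0 := Phi_gr (MvPolynomial.C q) (MvPolynomial.C t) (b :: bs)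
        (∏ j ∈ range (bs.length + 1), ∏ al : Fin N,
          (1 - MvPolynomial.C (MvPolynomial.X al : MvPolynomial (Fin N) K) * MvPolynomial.X j))
  rw [Dw_one, ← h0]
  have h1 := Phi_map (evN K N).toRingHom (MvPolynomial.C q) (MvPolynomial.C t) (b :: bs)
    (PowerSeries.coeff (b :: bs).sum (EP (et K) (bs.length + 1)))
  have hC : ∀ a : K, (evN K N).toRingHom (MvPolynomial.C a) = MvPolynomial.C a :=
    fun a => (evN K N).commutes a
  rw [hC, hC] at h1
  change (evN K N).toRingHom _ = _
  rw [h1]
  congr 1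
  rw [← PowerSeries.coeff_map]
  congr 1
  unfold EP
  rw [map_prod, map_prod]
  apply Finset.prod_congr rfl
  intro j _
  rw [map_prod, Finset.prod_congr rfl (fun al _ => gr_lin (X al : MvPolynomial (Fin N) K) j)]
  have h2 : ∏ al : Fin N, (1 - PowerSeries.C (C (X al : MvPolynomial (Fin N) K) * X j) *
      PowerSeries.X) = th j (∏ al : Fin N, (1 - PowerSeries.C (X al : MvPolynomial (Fin N) K) *
        PowerSeries.X)) := by
    rw [map_prod]
    apply Finset.prod_congr rfl
    intro al _
    rw [th_lin]
  rw [h2]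
  have h3 : (∏ al : Fin N, (1 - PowerSeries.C (X al : MvPolynomial (Fin N) K) *
        PowerSeries.X)) = PowerSeries.mk (fun n => evN K N (et K n)) := by
    ext1 n
    rw [PowerSeries.coeff_mk, evN_et]
  rw [h3, th_mk]
  ext1 n
  unfold EEs
  rw [PowerSeries.coeff_map, PowerSeries.coeff_mk, PowerSeries.coeff_mk, map_mul, map_pow,
    MvPolynomial.map_C, MvPolynomial.map_X]
  rfl

end Pool.Agent.Lib.MP_0e7911_co_h70
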