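import Pool.Agent.Lib.MP_0e7911_co_h70.Ser

/-!
# The value of `D_b 1` in terms of the functional `Φ_b`
-/

set_option autoImplicit false

namespace Pool.Agent.Lib.MP_0e7911_co_h70

open MvPolynomial Finset Pool.Agent.Lib.MP_0e7911_co_h94 Pool.Agent.Lib.MP_0e7911_co_h56
open Pool.Agent.Lib.MP_0e7911_co_full Pool.Agent.Lib.MP_0e7911_co_full.BaseSys

variable {K : Type*} [Field K]

/-- `C : K → Λ` on sequences -/
theorem am_mk (a : ℕ → K) : (am (PowerSeries.mk a) : PowerSeries (SymF K)) =
    PowerSeries.mk (fun n => MvPolynomial.C (a n)) := by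
  ext1 n
  unfold am
  rw [PowerSeries.coeff_map, PowerSeries.coeff_mk, PowerSeries.coeff_mk]
  rfl

/-- the polynomial `W_b` with `V_{b_0 :: b} = y^{b_0} W_b` -/
noncomputable def Wb (q t : K) (bs : List ℕ) : Polynomial (SymF K) :=
  ∑ c ∈ range (bs.sum + 1), Polynomial.X ^ c * Polynomial.C (Phi (MvPolynomial.C q) (MvPolynomial.C t) bs
    (PowerSeries.coeff (bs.sum - c) (EP (et K) bs.length) *
      PowerSeries.coeff c (Psi (MvPolynomial.C q) (MvPolynomial.C t) bs.length)))

theorem EEs_ker (a : ℕ → K) (i : ℕ) : EEs (ker a) i =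
    ry (th i (am (PowerSeries.mk a))) * rC (EEs (et K) i) := by
  rw [am_mk, th_mk, ← EEs_conv]
  rfl

variable [CharZero K]

theorem map_ioA_EEs (q t : K) (i : ℕ) :
    PowerSeries.map (MvPolynomial.map (ioA q t).toRingHom) (EEs (et K) i) =
      ry (th i (am (PowerSeries.mk (Wc q t)))) * rC (EEs (et K) i) := by
  rw [← EEs_ker]
  ext1 n
  unfold EEs
  rw [PowerSeries.coeff_map, PowerSeries.coeff_mk, PowerSeries.coeff_mk, map_mul, map_pow,
    MvPolynomial.map_C, MvPolynomial.map_X, ← ioA_et q t n]
  rfl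

theorem ZB_Wb (q t : K) (b : ℕ) (bs : List ℕ) :
    ZB q t (Polynomial.X ^ b * Wb q t bs) = Wb q t (b :: bs) := by
  have hA : ∀ c : ℕ, ioA q t (Phi (MvPolynomial.C q) (MvPolynomial.C t) bs
      (PowerSeries.coeff (bs.sum - c) (EP (et K) bs.length) *
      PowerSeries.coeff c (Psi (MvPolynomial.C q) (MvPolynomial.C t) bs.length))) =
      Phi (Polynomial.C (MvPolynomial.C q)) (Polynomial.C (MvPolynomial.C t)) bs
        (PowerSeries.coeff (bs.sum - c) (PowerSeries.map (MvPolynomial.map (ioA q t).toRingHom)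
          (EP (et K) bs.length)) *
        PowerSeries.coeff c (Psi (Polynomial.C (MvPolynomial.C q))
          (Polynomial.C (MvPolynomial.C t)) bs.length)) := by
    intro c
    have h1 := Phi_map (ioA q t).toRingHom (MvPolynomial.C q) (MvPolynomial.C t) bs
      (PowerSeries.coeff (bs.sum - c) (EP (et K) bs.length) *
      PowerSeries.coeff c (Psi (MvPolynomial.C q) (MvPolynomial.C t) bs.length))
    have hC : ∀ a : K, (ioA q t).toRingHom (MvPolynomial.C a) =
        Polynomial.C (MvPolynomial.C a) := fun a => (ioA q t).commutes a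
    rw [hC, hC, map_mul (MvPolynomial.map (ioA q t).toRingHom), ← PowerSeries.coeff_map,
      ← PowerSeries.coeff_map, map_Psi, hC, hC] at h1
    exact h1
  have hZ : ZB q t (Polynomial.X ^ b * Wb q t bs) = ∑ c ∈ range (bs.sum + 1),
      ker (Om q t) (b + c) * Phi (Polynomial.C (MvPolynomial.C q)) (Polynomial.C (MvPolynomial.C t))
        bs (PowerSeries.coeff (bs.sum - c) (PowerSeries.map (MvPolynomial.map (ioA q t).toRingHom)
          (EP (et K) bs.length)) *
        PowerSeries.coeff c (Psi (Polynomial.C (MvPolynomial.C q))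
          (Polynomial.C (MvPolynomial.C t)) bs.length)) := by
    unfold Wb
    rw [Finset.mul_sum, map_sum]
    apply Finset.sum_congr rfl
    intro c _
    rw [← mul_assoc, ← pow_add, mul_comm, Polynomial.C_mul_X_pow_eq_monomial, ZB_monomial, hA]
  have hG : EEs (ker (Om q t)) 0 * sh (PowerSeries.map (MvPolynomial.map (ioA q t).toRingHom)
      (EP (et K) bs.length)) =
      ry (Psi (MvPolynomial.C q) (MvPolynomial.C t) (bs.length + 1)) *
        rC (EP (et K) (bs.length + 1)) := by
    have h1 := Psi_succ (R := SymF K) q t bs.length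
    have h2 : Psi (MvPolynomial.C q) (MvPolynomial.C t) (bs.length + 1) =
      th 0 (am (PowerSeries.mk (Om q t))) *
      sh (∏ i ∈ range bs.length, th i (am (PowerSeries.mk (Wc q t)))) := h1
    rw [h2, EP_succ, EEs_ker, map_mul, map_mul]
    have h3 : PowerSeries.map (MvPolynomial.map (ioA q t).toRingHom) (EP (et K) bs.length) =
        ry (∏ i ∈ range bs.length, th i (am (PowerSeries.mk (Wc q t)))) *
          rC (EP (et K) bs.length) := by
      unfold EP
      rw [map_prod, Finset.prod_congr rfl (fun i _ => map_ioA_EEs q t i), Finset.prod_mul_distrib,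
        map_prod, map_prod]
    rw [h3, map_mul, sh_ry, sh_rC]
    ring
  rw [hZ, ← Phi_sum, hG]
  have hs : b + bs.sum = (b :: bs).sum := by simp
  rw [hs, Phi_y]
  rfl

theorem dB_Wb (q t : K) (b : ℕ) (bs : List ℕ) :
    dB K (Polynomial.X ^ b * Wb q t bs) =
      Phi (MvPolynomial.C q) (MvPolynomial.C t) (b :: bs)
        (PowerSeries.coeff (b :: bs).sum (EP (et K) (bs.length + 1))) := by
  have hd : dB K (Polynomial.X ^ b * Wb q t bs) = ∑ c ∈ range (bs.sum + 1),
      et K (b + c) * Phi (MvPolynomial.C q) (MvPolynomial.C t) bs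
        (PowerSeries.coeff (bs.sum - c) (EP (et K) bs.length) *
        PowerSeries.coeff c (Psi (MvPolynomial.C q) (MvPolynomial.C t) bs.length)) := by
    unfold Wb
    rw [Finset.mul_sum, map_sum]
    apply Finset.sum_congr rfl
    intro c _
    rw [← mul_assoc, ← pow_add, mul_comm, Polynomial.C_mul_X_pow_eq_monomial, dB_monomial]
  rw [hd, ← Phi_sum, ← EP_succ]
  have hs : b + bs.sum = (b :: bs).sum := by simp
  rw [hs]

theorem word_one (q t : K) (b : ℕ) (bs : List ℕ) :
    (baseSys q t).word (b :: bs) 1 = Polynomial.X ^ b * Wb q t bs := by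
  have hy : ∀ (n : ℕ) (v : Polynomial (SymF K)), ((baseSys q t).y ^ n) v = Polynomial.X ^ n * v := by
    intro n v
    induction n with
    | zero => simp
    | succ n ih =>
      rw [pow_succ', Module.End.mul_apply, ih]
      change Polynomial.X * (Polynomial.X ^ n * v) = _
      ring
  induction bs generalizing b with
  | nil =>
    change ((baseSys q t).y ^ b) 1 = _
    rw [hy]
    congr 1
    simp [Wb, EP, Psi, Phi]
  | cons b' bs ih =>
    change (((baseSys q t).y ^ b) ((baseSys q t).Z ((baseSys q t).word (b' :: bs) 1))) = _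
    rw [ih, hy]
    change Polynomial.X ^ b * ZB q t (Polynomial.X ^ b' * Wb q t bs) = _
    rw [ZB_Wb]

theorem Dw_one (q t : K) (b : ℕ) (bs : List ℕ) :
    (baseSys q t).Dw (b :: bs) 1 = Phi (MvPolynomial.C q) (MvPolynomial.C t) (b :: bs)
        (PowerSeries.coeff (b :: bs).sum (EP (et K) (bs.length + 1))) := by
  rw [← dB_Wb, ← word_one]
  change dB K ((baseSys q t).word (b :: bs) (ioA q t 1)) = _
  rw [map_one]

end Pool.Agent.Lib.MP_0e7911_co_h70
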