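import Pool.Agent.Lib.MP_0e7911_co_h94.Defs

/-!
# Basic properties of the functional `Φ_b`: recursion, base change, homogeneity
-/

set_option autoImplicit false

namespace Pool.Agent.Lib.MP_0e7911_co_h70

open MvPolynomial Finset Pool.Agent.Lib.MP_0e7911_co_h94

variable {R : Type*} [CommRing R]

theorem io_X (i : ℕ) : io (X i : MvPolynomial ℕ R) = X (i + 1) := by
  simp [io]

theorem io_C (a : R) : io (C a : MvPolynomial ℕ R) = C a := by
  simp [io]

theorem U0_io (f : MvPolynomial ℕ R) : U0 (io f) = 0 := by
  ext e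
  change coeff e ((io f).divMonomial (Finsupp.single 0 1)) = _
  rw [coeff_divMonomial, coeff_zero]
  unfold io
  apply coeff_rename_eq_zero
  intro u hu
  exfalso
  have h1 := DFunLike.congr_fun hu 0
  rw [Finsupp.mapDomain_of_notMem_range] at h1
  · simp only [Finsupp.add_apply, Finsupp.single_eq_same] at h1
    omega
  · rintro ⟨j, hj⟩
    exact Nat.succ_ne_zero j hj

theorem U0_X_mul (f : MvPolynomial ℕ R) : U0 (X 0 * f) = f := by
  ext e
  change coeff e ((X 0 * f).divMonomial (Finsupp.single 0 1)) = _
  rw [coeff_divMonomial, coeff_X_mul]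

theorem U0_pow_X_io (k j : ℕ) (f : MvPolynomial ℕ R) :
    (U0 ^ k) (X 0 ^ j * io f) = if k ≤ j then X 0 ^ (j - k) * io f else 0 := by
  induction k generalizing j with
  | zero => simp
  | succ k ih =>
    rw [pow_succ, Module.End.mul_apply]
    rcases j with _ | j
    · rw [pow_zero, one_mul, U0_io, map_zero, if_neg (by omega)]
    · rw [pow_succ', mul_assoc, U0_X_mul, ih]
      by_cases h : k ≤ j
      · rw [if_pos h, if_pos (by omega)]
        congr 2
        omega
      · rw [if_neg h, if_neg (by omega)]

theorem del_io (f : MvPolynomial ℕ R) : del 0 (io f) = f := by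
  unfold del io
  rw [aeval_rename]
  have : ((fun j => if j < 0 then X j else if j = 0 then 0 else X (j - 1)) ∘ Nat.succ :
      ℕ → MvPolynomial ℕ R) = X := by
    funext j
    simp
  rw [this, aeval_X_left, AlgHom.id_apply]

theorem del_X : del 0 (X 0 : MvPolynomial ℕ R) = 0 := by
  simp [del]

theorem cf_X_io (k j : ℕ) (f : MvPolynomial ℕ R) :
    cf k (X 0 ^ j * io f) = if j = k then f else 0 := by
  unfold cf
  rw [LinearMap.comp_apply, U0_pow_X_io]
  by_cases h : k ≤ j
  · rw [if_pos h]
    change del 0 (X 0 ^ (j - k) * io f) = _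
    rw [map_mul, map_pow, del_X, del_io]
    by_cases h2 : j = k
    · subst h2
      simp
    · rw [if_neg h2, zero_pow (by omega), zero_mul]
  · rw [if_neg h, if_neg (by omega), map_zero]

theorem toF_X_io (j : ℕ) (f : MvPolynomial ℕ R) :
    toF (X 0 ^ j * io f) = Finsupp.single j f := by
  ext1 k
  change cf k (X 0 ^ j * io f) = _
  rw [cf_X_io, Finsupp.single_apply]

/-- the recursion of `Φ` -/
theorem Phi_cons (q t : R) (b : ℕ) (bs : List ℕ) (j : ℕ) (f : MvPolynomial ℕ R) :
    Phi q t (b :: bs) (X 0 ^ j * io f) =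
      if b ≤ j then Phi q t bs (f * PowerSeries.coeff (j - b) (Psi q t bs.length)) else 0 := by
  rw [Phi, LinearMap.comp_apply, toF_X_io, Finsupp.lsum_single]
  split_ifs
  · rfl
  · rfl

/-- the exponent vector without its first entry -/
noncomputable def tl (e : ℕ →₀ ℕ) : ℕ →₀ ℕ :=
  Finsupp.comapDomain Nat.succ e Nat.succ_injective.injOn

theorem tl_spec (e : ℕ →₀ ℕ) : Finsupp.single 0 (e 0) + (tl e).mapDomain Nat.succ = e := by
  ext j
  rcases j with _ | j
  · rw [Finsupp.add_apply, Finsupp.single_eq_same, Finsupp.mapDomain_of_notMem_range, add_zero]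
    rintro ⟨j, hj⟩
    exact Nat.succ_ne_zero j hj
  · rw [Finsupp.add_apply, Finsupp.single_eq_of_ne (by omega), zero_add]
    change (tl e).mapDomain Nat.succ (Nat.succ j) = _
    rw [Finsupp.mapDomain_apply Nat.succ_injective]
    rfl

theorem monomial_eq (e : ℕ →₀ ℕ) (a : R) :
    (monomial e a : MvPolynomial ℕ R) = X 0 ^ (e 0) * io (monomial (tl e) a) := by
  unfold io
  rw [rename_monomial, X_pow_eq_monomial, monomial_mul, one_mul, tl_spec]

theorem degree_tl (e : ℕ →₀ ℕ) : e 0 + (tl e).degree = e.degree := by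
  conv_rhs => rw [← tl_spec e]
  rw [map_add, Finsupp.degree_single]
  congr 1
  exact (Finsupp.degree_mapDomain _ _).symm

/-! ### base change -/

theorem io_map {R' : Type*} [CommRing R'] (φ : R →+* R') (f : MvPolynomial ℕ R) :
    io (MvPolynomial.map φ f) = MvPolynomial.map φ (io f) := by
  unfold io
  rw [map_rename]

theorem map_geo {R' : Type*} [CommRing R'] (φ : R →+* R') (a : MvPolynomial ℕ R) :
    PowerSeries.map (MvPolynomial.map φ) (geo a) = geo (MvPolynomial.map φ a) := by
  ext1 n
  simp [geo]

theorem map_Psi {R' : Type*} [CommRing R'] (φ : R →+* R') (q t : R) (l : ℕ) :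
    PowerSeries.map (MvPolynomial.map φ) (Psi q t l) = Psi (φ q) (φ t) l := by
  rcases l with _ | l
  · simp [Psi]
  · simp only [Psi, map_mul, map_prod, map_sub, map_one, PowerSeries.map_C, PowerSeries.map_X,
      MvPolynomial.map_X, MvPolynomial.map_C, map_geo]

theorem Phi_map {R' : Type*} [CommRing R'] (φ : R →+* R') (q t : R) (b : List ℕ)
    (g : MvPolynomial ℕ R) :
    φ (Phi q t b g) = Phi (φ q) (φ t) b (MvPolynomial.map φ g) := by
  induction b generalizing g with
  | nil =>
    simp [Phi, coeff_map]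
  | cons b bs ih =>
    induction g using MvPolynomial.induction_on' with
    | monomial e a =>
      have h1 : MvPolynomial.map φ (X 0 ^ (e 0) * io (monomial (tl e) a)) =
          X 0 ^ (e 0) * io (MvPolynomial.map φ (monomial (tl e) a)) := by
        rw [map_mul, map_pow, MvPolynomial.map_X, io_map]
      rw [monomial_eq, h1, Phi_cons, Phi_cons]
      split_ifs
      · rw [ih, map_mul, ← PowerSeries.coeff_map, map_Psi]
      · rw [map_zero]
    | add p r hp hr =>
      rw [map_add, map_add, map_add, map_add, hp, hr]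

/-! ### homogeneity -/

/-- the coefficient of `u^n` is homogeneous of degree `n` -/
def HomS (P : PowerSeries (MvPolynomial ℕ R)) : Prop :=
  ∀ n, (PowerSeries.coeff n P).IsHomogeneous n

theorem HomS.mul {P Q : PowerSeries (MvPolynomial ℕ R)} (hP : HomS P) (hQ : HomS Q) :
    HomS (P * Q) := by
  intro n
  rw [PowerSeries.coeff_mul]
  apply IsHomogeneous.sum
  intro x hx
  rw [Finset.HasAntidiagonal.mem_antidiagonal] at hx
  rw [← hx]
  exact (hP x.1).mul (hQ x.2)

theorem HomS.one : HomS (1 : PowerSeries (MvPolynomial ℕ R)) := by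
  intro n
  rw [PowerSeries.coeff_one]
  split_ifs with h
  · subst h
    exact isHomogeneous_one _ _
  · exact isHomogeneous_zero _ _ _

theorem HomS.prod {ι : Type*} (s : Finset ι) (P : ι → PowerSeries (MvPolynomial ℕ R))
    (h : ∀ i ∈ s, HomS (P i)) : HomS (∏ i ∈ s, P i) := by
  classical
  induction s using Finset.induction_on with
  | empty => simpa using HomS.one
  | insert a s ha ih =>
    rw [Finset.prod_insert ha]
    exact (h a (mem_insert_self _ _)).mul (ih fun i hi => h i (mem_insert_of_mem hi))

theorem HomS.geo {a : MvPolynomial ℕ R} (ha : a.IsHomogeneous 1) : HomS (geo a) := by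
  intro n
  unfold MP_0e7911_co_h94.geo
  rw [PowerSeries.coeff_mk]
  simpa using ha.pow n

theorem HomS.lin {a : MvPolynomial ℕ R} (ha : a.IsHomogeneous 1) :
    HomS (1 - PowerSeries.C a * PowerSeries.X) := by
  intro n
  rw [map_sub, PowerSeries.coeff_one, PowerSeries.coeff_C_mul, PowerSeries.coeff_X]
  rcases n with _ | _ | n
  · simp only [if_true]
    rw [if_neg (by omega), mul_zero, sub_zero]
    exact isHomogeneous_one _ _
  · rw [if_neg (by omega), if_pos rfl, mul_one, zero_sub]
    exact ha.neg
  · rw [if_neg (by omega), if_neg (by omega), mul_zero, sub_zero]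
    exact isHomogeneous_zero _ _ _

theorem HomS.Psi (q t : R) (l : ℕ) : HomS (Psi q t l) := by
  rcases l with _ | l
  · exact HomS.one
  · unfold MP_0e7911_co_h94.Psi
    have hX : ∀ j, (X j : MvPolynomial ℕ R).IsHomogeneous 1 := fun j => isHomogeneous_X _ _
    have hCX : ∀ (a : R) j, (C a * X j : MvPolynomial ℕ R).IsHomogeneous 1 := fun a j => by
      simpa using (isHomogeneous_C ℕ a).mul (isHomogeneous_X R j)
    refine HomS.mul (HomS.prod _ _ fun j _ => ?_) (HomS.geo (hCX _ _))
    exact (((HomS.lin (hX j)).mul (HomS.lin (hCX _ _))).mul (HomS.geo (hCX _ _))).mul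
      (HomS.geo (hCX _ _))

theorem Phi_hom (q t : R) (b : List ℕ) : ∀ (n : ℕ) (g : MvPolynomial ℕ R), g.IsHomogeneous n →
    n ≠ b.sum → Phi q t b g = 0 := by
  induction b with
  | nil =>
    intro n g hg hn
    rw [List.sum_nil] at hn
    change coeff 0 g = 0
    apply hg.coeff_eq_zero
    rw [map_zero]
    exact fun h => hn h.symm
  | cons b bs ih =>
    intro n g hg hn
    rw [List.sum_cons] at hn
    have h1 : ∀ e ∈ g.support, Phi q t (b :: bs) (monomial e (coeff e g)) = 0 := by
      intro e he
      have hdeg : e.degree = n := by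
        by_contra h
        exact (mem_support_iff.1 he) (hg.coeff_eq_zero h)
      rw [monomial_eq, Phi_cons]
      split_ifs with hb
      · have h2 := degree_tl e
        apply ih ((tl e).degree + (e 0 - b))
        · exact (isHomogeneous_monomial _ rfl).mul (HomS.Psi q t _ _)
        · omega
      · rfl
    rw [g.as_sum, map_sum, Finset.sum_eq_zero h1]

end Pool.Agent.Lib.MP_0e7911_co_h70
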