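import Pool.Agent.Lib.MP_0e7911_co_h70.Phi
import Pool.Agent.Lib.MP_0e7911_co_full.PathDefs
import Pool.Agent.Lib.MP_0e7911_co_h54.Base

/-!
# Power series used in the link between `D_b 1` and `Φ_b`
-/

set_option autoImplicit false

namespace Pool.Agent.Lib.MP_0e7911_co_h70

open MvPolynomial Finset Pool.Agent.Lib.MP_0e7911_co_h94
open Pool.Agent.Lib.MP_0e7911_co_full (hqt Om)
open Pool.Agent.Lib.MP_0e7911_co_full.BaseSys (Wc)

section scalar

variable {K : Type*} [Field K]

theorem geoK (a : K) : (1 - PowerSeries.C a * PowerSeries.X) * PowerSeries.mk (fun n => a ^ n) = 1 := by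
  ext n
  rw [sub_mul, one_mul, map_sub, PowerSeries.coeff_mk, mul_assoc, PowerSeries.coeff_C_mul,
    PowerSeries.coeff_one]
  rcases n with _ | n
  · simp
  · rw [PowerSeries.coeff_succ_X_mul, PowerSeries.coeff_mk, if_neg (by omega), pow_succ']
    ring

theorem mk_hqt (q t : K) : PowerSeries.mk (hqt q t) =
    PowerSeries.mk (fun n => q ^ n) * PowerSeries.mk (fun n => t ^ n) := by
  ext n
  rw [PowerSeries.coeff_mul, Finset.Nat.sum_antidiagonal_eq_sum_range_succ
    (fun i j => PowerSeries.coeff i (PowerSeries.mk (fun n => q ^ n)) *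
      PowerSeries.coeff j (PowerSeries.mk (fun n => t ^ n)))]
  simp [hqt]

theorem mk_Om (q t : K) : PowerSeries.mk (Om q t) =
    (1 - PowerSeries.X) * (PowerSeries.mk (fun n => q ^ n) * PowerSeries.mk (fun n => t ^ n)) := by
  rw [← mk_hqt]
  ext n
  rw [sub_mul, one_mul, map_sub, PowerSeries.coeff_mk, PowerSeries.coeff_mk]
  rcases n with _ | n
  · simp [Om, hqt]
  · rw [PowerSeries.coeff_succ_X_mul, PowerSeries.coeff_mk]
    rfl

theorem mk_Wc (q t : K) : PowerSeries.mk (Wc q t) =
    (1 - PowerSeries.C (q * t) * PowerSeries.X) * PowerSeries.mk (Om q t) := by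
  ext n
  rw [sub_mul, one_mul, map_sub, PowerSeries.coeff_mk, PowerSeries.coeff_mk, mul_assoc,
    PowerSeries.coeff_C_mul]
  rcases n with _ | n
  · simp [Wc, Om]
  · rw [PowerSeries.coeff_succ_X_mul, PowerSeries.coeff_mk]
    rfl

theorem mk_Wc_geo (q t : K) : PowerSeries.mk (Wc q t) * PowerSeries.mk (fun n => (q * t) ^ n) =
    PowerSeries.mk (Om q t) := by
  rw [mk_Wc, mul_right_comm, geoK, one_mul]

end scalar

variable {R : Type*} [CommRing R]

/-- the series `∑ a_n (z_i u)^n` -/
noncomputable def EEs (a : ℕ → R) (i : ℕ) : PowerSeries (MvPolynomial ℕ R) :=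
  PowerSeries.mk fun n => C (a n) * X i ^ n

/-- shift of the variables -/
noncomputable def sh : PowerSeries (MvPolynomial ℕ R) →+* PowerSeries (MvPolynomial ℕ R) :=
  PowerSeries.map (io : MvPolynomial ℕ R →ₐ[R] MvPolynomial ℕ R).toRingHom

theorem sh_EEs (a : ℕ → R) (i : ℕ) : sh (EEs a i) = EEs a (i + 1) := by
  ext1 n
  unfold sh EEs
  rw [PowerSeries.coeff_map, PowerSeries.coeff_mk, PowerSeries.coeff_mk]
  change io (C (a n) * X i ^ n) = _
  rw [map_mul, map_pow, io_C, io_X]

/-- `f(z_i u)` for a scalar power series `f` -/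
noncomputable def th (i : ℕ) : PowerSeries R →+* PowerSeries (MvPolynomial ℕ R) :=
  (PowerSeries.rescale (X i : MvPolynomial ℕ R)).comp (PowerSeries.map (C : R →+* MvPolynomial ℕ R))

theorem th_mk (i : ℕ) (a : ℕ → R) : th i (PowerSeries.mk a) = EEs a i := by
  ext1 n
  unfold th EEs
  rw [RingHom.comp_apply, PowerSeries.coeff_rescale, PowerSeries.coeff_map, PowerSeries.coeff_mk,
    PowerSeries.coeff_mk, mul_comm]

theorem th_lin (i : ℕ) (a : R) : th i (1 - PowerSeries.C a * PowerSeries.X) =
    1 - PowerSeries.C (C a * X i) * PowerSeries.X := by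
  unfold th
  rw [RingHom.comp_apply]
  simp only [map_sub, map_one, map_mul, PowerSeries.map_C, PowerSeries.map_X,
    PowerSeries.rescale_X]
  congr 1
  have h : PowerSeries.rescale (X i : MvPolynomial ℕ R) (PowerSeries.C (C a)) =
      PowerSeries.C (C a : MvPolynomial ℕ R) := by
    ext1 n
    rw [PowerSeries.coeff_rescale, PowerSeries.coeff_C]
    split_ifs with hn
    · subst hn
      simp
    · simp
  rw [h, mul_assoc]

theorem th_geo (i : ℕ) (a : R) : th i (PowerSeries.mk (fun n => a ^ n)) = geo (C a * X i) := by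
  rw [th_mk]
  ext1 n
  unfold EEs geo
  rw [PowerSeries.coeff_mk, PowerSeries.coeff_mk, mul_pow, map_pow]

theorem sh_th (i : ℕ) (f : PowerSeries R) : sh (th i f) = th (i + 1) f := by
  have h : f = PowerSeries.mk (fun n => PowerSeries.coeff n f) := by
    ext1 n
    rw [PowerSeries.coeff_mk]
  rw [h, th_mk, th_mk, sh_EEs]

section Psi

variable {K : Type*} [Field K] [Algebra K R]

/-- scalar series over `K` viewed over `R` -/
noncomputable def am : PowerSeries K →+* PowerSeries R := PowerSeries.map (algebraMap K R)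

theorem Psi_succ (q t : K) (l : ℕ) : Psi (algebraMap K R q) (algebraMap K R t) (l + 1) =
    th 0 (am (PowerSeries.mk (Om q t))) *
      sh (∏ i ∈ range l, th i (am (PowerSeries.mk (Wc q t)))) := by
  have hfac : ∀ j, (1 - PowerSeries.C (X j : MvPolynomial ℕ R) * PowerSeries.X) *
      (1 - PowerSeries.C (C (algebraMap K R q * algebraMap K R t) * X j) * PowerSeries.X) *
      geo (C (algebraMap K R q) * X j) * geo (C (algebraMap K R t) * X j) =
      th j (am (PowerSeries.mk (Wc q t))) := by
    intro j
    rw [mk_Wc, mk_Om]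
    have h1 : (1 - PowerSeries.C (X j : MvPolynomial ℕ R) * PowerSeries.X) =
        th j (am (1 - PowerSeries.X : PowerSeries K)) := by
      have h0 : (am (1 - PowerSeries.X : PowerSeries K) : PowerSeries R) =
          1 - PowerSeries.C 1 * PowerSeries.X := by
        unfold am
        rw [map_sub, map_one, PowerSeries.map_X, map_one, one_mul]
      rw [h0, th_lin, map_one, one_mul]
    have h2 : (1 - PowerSeries.C (C (algebraMap K R q * algebraMap K R t) * X j) *
        PowerSeries.X) = th j (am (1 - PowerSeries.C (q * t) * PowerSeries.X)) := by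
      rw [← th_lin]
      congr 1
      unfold am
      simp only [map_sub, map_one, map_mul, PowerSeries.map_X, PowerSeries.map_C]
    have h3 : ∀ a : K, geo (C (algebraMap K R a) * X j) =
        th j (am (PowerSeries.mk (fun n => a ^ n))) := by
      intro a
      rw [← th_geo]
      congr 1
      ext1 n
      unfold am
      rw [PowerSeries.coeff_mk, PowerSeries.coeff_map, PowerSeries.coeff_mk, map_pow]
    rw [h1, h2, h3, h3]
    simp only [map_mul]
    ring
  rw [Psi, Finset.prod_congr rfl (fun j _ => hfac j), Finset.prod_range_succ']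
  have h4 : geo (C (algebraMap K R q * algebraMap K R t) * X 0) =
      th 0 (am (PowerSeries.mk (fun n => (q * t) ^ n))) := by
    rw [← th_geo]
    congr 1
    ext1 n
    unfold am
    rw [PowerSeries.coeff_mk, PowerSeries.coeff_map, PowerSeries.coeff_mk, map_pow, map_mul]
  rw [h4, mul_assoc, ← map_mul, ← map_mul, mk_Wc_geo, mul_comm, map_prod]
  congr 1
  apply Finset.prod_congr rfl
  intro i _
  rw [sh_th]

end Psi

/-- `∏_{i < l} E(z_i u)` -/
noncomputable def EP (a : ℕ → R) (l : ℕ) : PowerSeries (MvPolynomial ℕ R) :=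
  ∏ i ∈ range l, EEs a i

theorem EP_succ (a : ℕ → R) (l : ℕ) : EP a (l + 1) = EEs a 0 * sh (EP a l) := by
  unfold EP
  rw [Finset.prod_range_succ', map_prod, mul_comm]
  congr 1
  apply Finset.prod_congr rfl
  intro i _
  rw [sh_EEs]

/-- first sum formula -/
theorem Phi_sum (q t : R) (b : ℕ) (bs : List ℕ) (a : ℕ → R) (G : PowerSeries (MvPolynomial ℕ R))
    (s : ℕ) :
    Phi q t (b :: bs) (PowerSeries.coeff (b + s) (EEs a 0 * sh G)) =
      ∑ c ∈ range (s + 1), a (b + c) *
        Phi q t bs (PowerSeries.coeff (s - c) G * PowerSeries.coeff c (Psi q t bs.length)) := by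
  have hterm : ∀ k m, Phi q t (b :: bs) (PowerSeries.coeff k (EEs a 0) * PowerSeries.coeff m (sh G)) =
      if b ≤ k then a k * Phi q t bs (PowerSeries.coeff m G *
        PowerSeries.coeff (k - b) (Psi q t bs.length)) else 0 := by
    intro k m
    have h1 : PowerSeries.coeff k (EEs a 0) * PowerSeries.coeff m (sh G) =
        a k • (X 0 ^ k * io (PowerSeries.coeff m G)) := by
      unfold EEs sh
      rw [PowerSeries.coeff_mk, PowerSeries.coeff_map, MvPolynomial.smul_eq_C_mul, mul_assoc]
      rfl
    rw [h1, map_smul, Phi_cons, smul_eq_mul]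
    split_ifs
    · rfl
    · rw [mul_zero]
  rw [PowerSeries.coeff_mul, map_sum, Finset.sum_congr rfl (fun x _ => hterm x.1 x.2),
    Finset.Nat.sum_antidiagonal_eq_sum_range_succ (fun k m => if b ≤ k then a k *
      Phi q t bs (PowerSeries.coeff m G * PowerSeries.coeff (k - b) (Psi q t bs.length)) else 0),
    show (b + s).succ = b + (s + 1) from rfl, Finset.sum_range_add]
  have h0 : ∑ k ∈ range b, (if b ≤ k then a k * Phi q t bs (PowerSeries.coeff (b + s - k) G *
      PowerSeries.coeff (k - b) (Psi q t bs.length)) else 0) = 0 := by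
    apply Finset.sum_eq_zero
    intro k hk
    rw [mem_range] at hk
    rw [if_neg (by omega)]
  rw [h0, zero_add]
  apply Finset.sum_congr rfl
  intro c _
  rw [if_pos (by omega)]
  have h2 : b + s - (b + c) = s - c := by omega
  have h3 : b + c - b = c := by omega
  rw [h2, h3]

/-! ### the variable `y` -/

/-- extension of scalars to `R[y]` -/
noncomputable def rC : PowerSeries (MvPolynomial ℕ R) →+* PowerSeries (MvPolynomial ℕ (Polynomial R)) :=
  PowerSeries.map (MvPolynomial.map (Polynomial.C : R →+* Polynomial R))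

/-- extension of scalars to `R[y]`, with `u ↦ y u` -/
noncomputable def ry : PowerSeries (MvPolynomial ℕ R) →+* PowerSeries (MvPolynomial ℕ (Polynomial R)) :=
  (PowerSeries.rescale (C Polynomial.X : MvPolynomial ℕ (Polynomial R))).comp rC

theorem sh_rC (f : PowerSeries (MvPolynomial ℕ R)) : sh (rC f) = rC (sh f) := by
  ext1 n
  unfold sh rC
  rw [PowerSeries.coeff_map, PowerSeries.coeff_map, PowerSeries.coeff_map, PowerSeries.coeff_map]
  exact io_map _ _

theorem sh_ry (f : PowerSeries (MvPolynomial ℕ R)) : sh (ry f) = ry (sh f) := by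
  ext1 n
  unfold ry
  rw [RingHom.comp_apply, RingHom.comp_apply, ← sh_rC, PowerSeries.coeff_rescale]
  unfold sh
  rw [PowerSeries.coeff_map, PowerSeries.coeff_map, PowerSeries.coeff_rescale, map_mul, map_pow]
  congr 1
  change io (C Polynomial.X) ^ n = _
  rw [io_C]

/-- second sum formula -/
theorem Phi_y (q t : R) (b : List ℕ) (n : ℕ) (P E : PowerSeries (MvPolynomial ℕ R)) :
    Phi (Polynomial.C q) (Polynomial.C t) b (PowerSeries.coeff n (ry P * rC E)) =
      ∑ c ∈ range (n + 1), Polynomial.X ^ c *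
        Polynomial.C (Phi q t b (PowerSeries.coeff (n - c) E * PowerSeries.coeff c P)) := by
  rw [PowerSeries.coeff_mul, map_sum]
  have hterm : ∀ c m, Phi (Polynomial.C q) (Polynomial.C t) b
      (PowerSeries.coeff c (ry P) * PowerSeries.coeff m (rC E)) =
      Polynomial.X ^ c * Polynomial.C (Phi q t b (PowerSeries.coeff m E * PowerSeries.coeff c P)) := by
    intro c m
    have h1 : PowerSeries.coeff c (ry P) * PowerSeries.coeff m (rC E) =
        (Polynomial.X ^ c : Polynomial R) • MvPolynomial.map Polynomial.C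
          (PowerSeries.coeff m E * PowerSeries.coeff c P) := by
      unfold ry rC
      rw [RingHom.comp_apply, PowerSeries.coeff_rescale, PowerSeries.coeff_map,
        PowerSeries.coeff_map, MvPolynomial.smul_eq_C_mul, map_pow, map_mul]
      ring
    rw [h1, map_smul, smul_eq_mul, Phi_map]
  rw [Finset.sum_congr rfl (fun x _ => hterm x.1 x.2),
    Finset.Nat.sum_antidiagonal_eq_sum_range_succ (fun c m => Polynomial.X ^ c *
      Polynomial.C (Phi q t b (PowerSeries.coeff m E * PowerSeries.coeff c P)))]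

/-- the series of a sequence of convolutions -/
theorem EEs_conv (e w : ℕ → R) (i : ℕ) :
    EEs (fun n => ∑ x ∈ antidiagonal n, Polynomial.C (e x.1 * w x.2) * Polynomial.X ^ x.2) i =
      ry (EEs w i) * rC (EEs e i) := by
  ext1 n
  rw [PowerSeries.coeff_mul, ← Finset.Nat.sum_antidiagonal_swap]
  unfold EEs ry rC
  rw [PowerSeries.coeff_mk, map_sum, Finset.sum_mul]
  apply Finset.sum_congr rfl
  intro x hx
  rw [RingHom.comp_apply, PowerSeries.coeff_rescale, PowerSeries.coeff_map, PowerSeries.coeff_mk,
    PowerSeries.coeff_map, PowerSeries.coeff_mk]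
  rw [Finset.HasAntidiagonal.mem_antidiagonal] at hx
  simp only [Prod.fst_swap, Prod.snd_swap, map_mul, map_pow, MvPolynomial.map_X,
    MvPolynomial.map_C]
  rw [← hx, pow_add]
  ring

end Pool.Agent.Lib.MP_0e7911_co_h70
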